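import Mathlib

set_option autoImplicit false

namespace Pool.Agent.Results.MP_3684f0_an.Expose

open scoped RealInnerProductSpace Topology
open Filter

universe u

variable {H : Type u} [NormedAddCommGroup H] [InnerProductSpace ℝ H]

/-- `p` is a point of `C` nearest to `x` -/
def Nearest (C : Set H) (x p : H) : Prop := p ∈ C ∧ ∀ y ∈ C, ‖x - p‖ ≤ ‖x - y‖

/-- `p` is the metric projection of `x` onto `C`, the unique nearest point -/
def IsProj (C : Set H) (x p : H) : Prop := ∀ q, Nearest C x q ↔ q = p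

/-- the vector `v` strongly exposes `p` in `C` -/
def StronglyExposes (C : Set H) (v p : H) : Prop :=
  p ∈ C ∧ ⟪v, p⟫ = sSup ((fun y => ⟪v, y⟫) '' C) ∧
    ∀ y : ℕ → H, (∀ k, y k ∈ C) →
      Tendsto (fun k => ⟪v, y k⟫) atTop (𝓝 (sSup ((fun y => ⟪v, y⟫) '' C))) →
        Tendsto y atTop (𝓝 p)

lemma main {C : Set H} {x p : H} (hp : p ∈ C)
    (h : ∀ y ∈ C, ⟪x - p, y - p⟫ ≤ -(1 / 2) * ‖y - p‖ ^ 2) :
    IsProj C x p ∧ StronglyExposes C (x - p) p := by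
  have h1 : ∀ y ∈ C, ‖x - p‖ ^ 2 + 2 * ‖y - p‖ ^ 2 ≤ ‖x - y‖ ^ 2 := fun y hy => by
    have e : x - y = (x - p) - (y - p) := by abel
    rw [e, norm_sub_sq_real (x - p)]
    linarith [h y hy]
  have h2 : IsGreatest ((fun y => ⟪x - p, y⟫) '' C) ⟪x - p, p⟫ := by
    refine ⟨⟨p, hp, rfl⟩, ?_⟩
    rintro _ ⟨y, hy, rfl⟩
    have := h y hy
    rw [inner_sub_right] at this
    nlinarith [sq_nonneg ‖y - p‖]
  refine ⟨fun q => ⟨fun hq => ?_, ?_⟩, hp, h2.csSup_eq.symm, fun y hy hl => ?_⟩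
  · have k1 := h1 q hq.1
    have k2 := pow_le_pow_left₀ (norm_nonneg _) (hq.2 p hp) 2
    have k3 : ‖q - p‖ ^ 2 = 0 := le_antisymm (by linarith) (sq_nonneg _)
    exact sub_eq_zero.1 (norm_eq_zero.1 (pow_eq_zero_iff two_ne_zero |>.1 k3))
  · rintro rfl
    exact ⟨hp, fun y hy => (pow_le_pow_iff_left₀ (norm_nonneg _) (norm_nonneg _) two_ne_zero).1
      (by nlinarith [h1 y hy, sq_nonneg ‖y - q‖])⟩
  · rw [h2.csSup_eq] at hl
    rw [tendsto_iff_norm_sub_tendsto_zero]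
    have k1 : Tendsto (fun k => √(2 * (⟪x - p, p⟫ - ⟪x - p, y k⟫))) atTop (𝓝 0) := by
      have := ((hl.const_sub ⟪x - p, p⟫).const_mul 2).sqrt
      simpa using this
    refine squeeze_zero (fun k => norm_nonneg _) (fun k => Real.le_sqrt_of_sq_le ?_) k1
    have := h _ (hy k)
    rw [inner_sub_right] at this
    linarith

lemma step (p q y : H) (h : ‖y + q‖ ^ 2 - 1 / 2 * ‖y‖ ^ 2 ≤ ‖p + q‖ ^ 2 - 1 / 2 * ‖p‖ ^ 2) :
    ⟪(2 : ℝ) • (p + q) - p, y - p⟫ ≤ -(1 / 2) * ‖y - p‖ ^ 2 := by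
  obtain ⟨d, rfl⟩ : ∃ d, y = p + d := ⟨y - p, by abel⟩
  rw [show p + d + q = (p + q) + d by abel, norm_add_sq_real (p + q), norm_add_sq_real p d] at h
  rw [add_sub_cancel_left, inner_sub_left, real_inner_smul_left]
  linarith

/-- A point whose two projection normals strongly expose the two projections. -/
theorem result (H : Type u) [NormedAddCommGroup H] [InnerProductSpace ℝ H] [CompleteSpace H]
    (C₁ C₂ : Set H) (n₁ : C₁.Nonempty) (n₂ : C₂.Nonempty) (k₁ : IsCompact C₁) (k₂ : IsCompact C₂)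
    (_c₁ : Convex ℝ C₁) (_c₂ : Convex ℝ C₂) :
    ∃ x p₁ p₂ : H, IsProj C₁ x p₁ ∧ IsProj C₂ x p₂ ∧
      StronglyExposes C₁ (x - p₁) p₁ ∧ StronglyExposes C₂ (x - p₂) p₂ := by
  obtain ⟨⟨p, q⟩, ⟨hp, hq⟩, hm⟩ := (k₁.prod k₂).exists_isMaxOn (n₁.prod n₂)
    (f := fun z : H × H => ‖z.1 + z.2‖ ^ 2 - 1 / 2 * ‖z.1‖ ^ 2 - 1 / 2 * ‖z.2‖ ^ 2)
    (Continuous.continuousOn (by fun_prop))
  have a := main (x := (2 : ℝ) • (p + q)) hp fun y hy => step p q y (by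
    have := hm (show (y, q) ∈ C₁ ×ˢ C₂ from ⟨hy, hq⟩)
    simp only [Set.mem_ofPred_eq] at this
    linarith)
  have b := main (x := (2 : ℝ) • (q + p)) hq fun y hy => step q p y (by
    have := hm (show (p, y) ∈ C₁ ×ˢ C₂ from ⟨hp, hy⟩)
    simp only [Set.mem_ofPred_eq] at this
    rw [add_comm y p, add_comm q p]
    linarith)
  rw [add_comm q p] at b
  exact ⟨_, p, q, a.1, b.1, a.2, b.2⟩

end Pool.Agent.Results.MP_3684f0_an.Expose
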